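import Mathlib

/-!
Definitions for problem MP_89ce39_al: regular star-semigroups, their projections, the free
projection-generated semigroup on the projections, and Green's relation H on a semigroup.
-/

set_option autoImplicit false

universe u

namespace Pool.Agent.Lib.MP_89ce39_al

/-- A regular star-semigroup: a semigroup with a unary operation `star` such that
`star (star a) = a`, `star (a * b) = star b * star a` and `a * star a * a = a`. -/
class RegularStarSemigroup (S : Type u) extends Semigroup S, StarMul S where
  mul_star_mul_self : ∀ a : S, a * star a * a = a

section Projections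

variable (S : Type u) [RegularStarSemigroup S]

/-- The set of projections of `S`: the elements `p` with `p * p = p` and `star p = p`. -/
def Projection : Type u := {p : S // p * p = p ∧ star p = p}

variable {S}

/-- In a regular star-semigroup the product of two projections is idempotent. -/
theorem mul_mul_mul_self (p q : Projection S) :
    p.1 * q.1 * (p.1 * q.1) = p.1 * q.1 := by
  have h := RegularStarSemigroup.mul_star_mul_self (p.1 * q.1)
  rw [star_mul, p.2.2, q.2.2] at h
  calc p.1 * q.1 * (p.1 * q.1) = p.1 * (q.1 * q.1) * (p.1 * p.1) * q.1 := by
        rw [p.2.1, q.2.1]; simp only [mul_assoc]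
    _ = p.1 * q.1 * (q.1 * p.1) * (p.1 * q.1) := by simp only [mul_assoc]
    _ = p.1 * q.1 := h

/-- For projections `p`, `q` the element `p * q * p` is again a projection. -/
def Projection.conj (p q : Projection S) : Projection S :=
  ⟨p.1 * q.1 * p.1, by
    constructor
    · calc p.1 * q.1 * p.1 * (p.1 * q.1 * p.1)
          = p.1 * q.1 * (p.1 * p.1) * q.1 * p.1 := by simp only [mul_assoc]
        _ = p.1 * q.1 * (p.1 * q.1) * p.1 := by rw [p.2.1]; simp only [mul_assoc]
        _ = p.1 * q.1 * p.1 := by rw [mul_mul_mul_self]
    · rw [star_mul, star_mul, p.2.2, q.2.2, mul_assoc]⟩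

variable (S)

/-- The defining relations of the free projection-generated regular star-semigroup:
`x_p x_p = x_p`, `(x_p x_q)(x_p x_q) = x_p x_q` and `x_p x_q x_p = x_{pqp}`. -/
inductive PGRel : FreeSemigroup (Projection S) → FreeSemigroup (Projection S) → Prop
  | idem (p : Projection S) :
      PGRel (FreeSemigroup.of p * FreeSemigroup.of p) (FreeSemigroup.of p)
  | prod (p q : Projection S) :
      PGRel (FreeSemigroup.of p * FreeSemigroup.of q * (FreeSemigroup.of p * FreeSemigroup.of q))
        (FreeSemigroup.of p * FreeSemigroup.of q)
  | conj (p q : Projection S) :
      PGRel (FreeSemigroup.of p * FreeSemigroup.of q * FreeSemigroup.of p)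
        (FreeSemigroup.of (Projection.conj p q))

/-- The semigroup `PG(P)`, where `P` is the set of projections of `S`: the quotient of the free
semigroup on symbols `x_p`, `p` a projection of `S`, by the congruence generated by the defining
relations. -/
abbrev PG : Type u := (conGen (PGRel S)).Quotient

end Projections

section Green

variable {T : Type u} [Semigroup T]

/-- `a` lies in the principal right ideal `b T¹`. -/
def MemRight (a b : T) : Prop := a = b ∨ ∃ x : T, a = b * x

/-- `a` lies in the principal left ideal `T¹ b`. -/
def MemLeft (a b : T) : Prop := a = b ∨ ∃ x : T, a = x * b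

/-- Green's relation H: `a` and `b` generate the same principal right ideal and the same
principal left ideal. -/
def GreenH (a b : T) : Prop :=
  (MemRight a b ∧ MemRight b a) ∧ (MemLeft a b ∧ MemLeft b a)

/-- The maximal subgroup at `e` (an idempotent), as a set: the H-class of `e`. -/
def maximalSubgroup (e : T) : Set T := {a | GreenH a e}

end Green

end Pool.Agent.Lib.MP_89ce39_al
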