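import Pool.Agent.Lib.MP_89ce39_al.Defs

/-!
A regular star-semigroup attached to a group `G`: matrices indexed by `Fin 3` whose entries are
subsets of `G` with at most one element; the members are the partial identities `diag D` and the
rank one matrices `outer α β`.
-/

set_option autoImplicit false

universe u

namespace Pool.Agent.Lib.MP_89ce39_al

section Model

variable {G : Type u} [Group G]

/-- Matrices with entries subsets of `G`. -/
abbrev Mat (G : Type u) : Type u := Fin 3 → Fin 3 → Set G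

/-- Product: the entry is the common value of all the products, if there is one. -/
def mmul (M N : Mat G) : Mat G := fun i k =>
  {z | (∃ j x y, x ∈ M i j ∧ y ∈ N j k ∧ x * y = z) ∧
    ∀ j x y, x ∈ M i j → y ∈ N j k → x * y = z}

/-- Transpose and invert the entries. -/
def mstar (M : Mat G) : Mat G := fun i j => {z | z⁻¹ ∈ M j i}

/-- Partial identity. -/
def diag (G : Type u) [Group G] (D : Set (Fin 3)) : Mat G := fun i j => {z | i = j ∧ i ∈ D ∧ z = 1}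

/-- Rank one matrix. -/
def outer (α β : Fin 3 → Option G) : Mat G := fun i j =>
  {z | ∃ a b, α i = some a ∧ β j = some b ∧ z = a⁻¹ * b}

open Classical in
/-- Restriction of a partial function. -/
noncomputable def res (D : Set (Fin 3)) (α : Fin 3 → Option G) : Fin 3 → Option G :=
  fun i => if i ∈ D then α i else none

/-- Left multiplication of a partial function. -/
def gsm (g : G) (α : Fin 3 → Option G) : Fin 3 → Option G := fun i => (α i).map (g * ·)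

/-- `β` and `γ` have overlapping domains and `β = g γ` on the overlap. -/
def Pair (β γ : Fin 3 → Option G) (g : G) : Prop :=
  (∃ j b c, β j = some b ∧ γ j = some c) ∧
    ∀ j b c, β j = some b → γ j = some c → b * c⁻¹ = g

theorem res_eq_some {D : Set (Fin 3)} {α : Fin 3 → Option G} {i : Fin 3} {a : G} :
    res D α i = some a ↔ i ∈ D ∧ α i = some a := by
  unfold res; split_ifs with h <;> simp [h]

theorem gsm_eq_some {g : G} {α : Fin 3 → Option G} {i : Fin 3} {a : G} :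
    gsm g α i = some a ↔ ∃ c, α i = some c ∧ g * c = a := by
  simp [gsm, Option.map_eq_some_iff]

theorem Pair.unique {β γ : Fin 3 → Option G} {g h : G} (h1 : Pair β γ g) (h2 : Pair β γ h) :
    g = h := by
  obtain ⟨⟨j, b, c, hb, hc⟩, h3⟩ := h1
  rw [← h3 j b c hb hc, h2.2 j b c hb hc]

theorem Pair.symm {β γ : Fin 3 → Option G} {g : G} (h : Pair β γ g) : Pair γ β g⁻¹ := by
  obtain ⟨⟨j, b, c, hb, hc⟩, h3⟩ := h
  refine ⟨⟨j, c, b, hc, hb⟩, fun j' c' b' hc' hb' => ?_⟩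
  rw [← h3 j' b' c' hb' hc']; group

theorem Pair.gsm_left {β γ : Fin 3 → Option G} {g : G} (k : G) (h : Pair β γ g) :
    Pair (gsm k β) γ (k * g) := by
  obtain ⟨⟨j, b, c, hb, hc⟩, h3⟩ := h
  refine ⟨⟨j, k * b, c, gsm_eq_some.2 ⟨b, hb, rfl⟩, hc⟩, fun j' b' c' hb' hc' => ?_⟩
  obtain ⟨b'', hb'', rfl⟩ := gsm_eq_some.1 hb'
  rw [← h3 j' b'' c' hb'' hc']; group

theorem Pair.of_gsm_left {β γ : Fin 3 → Option G} {g : G} (k : G) (h : Pair (gsm k β) γ g) :
    Pair β γ (k⁻¹ * g) := by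
  obtain ⟨⟨j, b, c, hb, hc⟩, h3⟩ := h
  obtain ⟨b0, hb0, rfl⟩ := gsm_eq_some.1 hb
  refine ⟨⟨j, b0, c, hb0, hc⟩, fun j' b' c' hb' hc' => ?_⟩
  rw [← h3 j' (k * b') c' (gsm_eq_some.2 ⟨b', hb', rfl⟩) hc']; group

theorem Pair.gsm_right {β γ : Fin 3 → Option G} {g : G} (k : G) (h : Pair β γ g) :
    Pair β (gsm k γ) (g * k⁻¹) := by
  obtain ⟨⟨j, b, c, hb, hc⟩, h3⟩ := h
  refine ⟨⟨j, b, k * c, hb, gsm_eq_some.2 ⟨c, hc, rfl⟩⟩, fun j' b' c' hb' hc' => ?_⟩
  obtain ⟨c'', hc'', rfl⟩ := gsm_eq_some.1 hc'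
  rw [← h3 j' b' c'' hb' hc'']; group

theorem Pair.of_gsm_right {β γ : Fin 3 → Option G} {g : G} (k : G) (h : Pair β (gsm k γ) g) :
    Pair β γ (g * k) := by
  obtain ⟨⟨j, b, c, hb, hc⟩, h3⟩ := h
  obtain ⟨c0, hc0, rfl⟩ := gsm_eq_some.1 hc
  refine ⟨⟨j, b, c0, hb, hc0⟩, fun j' b' c' hb' hc' => ?_⟩
  rw [← h3 j' b' (k * c') hb' (gsm_eq_some.2 ⟨c', hc', rfl⟩)]; group

theorem pair_res_iff {β γ : Fin 3 → Option G} {g : G} (D : Set (Fin 3)) :
    Pair (res D β) γ g ↔ Pair β (res D γ) g := by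
  unfold Pair
  simp only [res_eq_some]
  constructor
  · rintro ⟨⟨j, b, c, ⟨hD, hb⟩, hc⟩, h3⟩
    exact ⟨⟨j, b, c, hb, hD, hc⟩, fun j b c hb hc => h3 j b c ⟨hc.1, hb⟩ hc.2⟩
  · rintro ⟨⟨j, b, c, hb, hD, hc⟩, h3⟩
    exact ⟨⟨j, b, c, ⟨hD, hb⟩, hc⟩, fun j b c hb hc => h3 j b c hb.2 ⟨hb.1, hc⟩⟩

theorem pair_self {β : Fin 3 → Option G} {j : Fin 3} {b : G} (h : β j = some b) :
    Pair β β 1 := by
  refine ⟨⟨j, b, b, h, h⟩, fun j' b' c' hb' hc' => ?_⟩
  rw [hb'] at hc'; rw [Option.some.inj hc']; group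

theorem gsm_one (α : Fin 3 → Option G) : gsm 1 α = α := by
  funext i; simp [gsm]

theorem gsm_gsm (g h : G) (α : Fin 3 → Option G) : gsm g (gsm h α) = gsm (g * h) α := by
  funext i; simp [gsm, Function.comp_def, mul_assoc]

theorem outer_gsm_gsm (g : G) (α β : Fin 3 → Option G) :
    outer (gsm g α) (gsm g β) = outer α β := by
  funext i j; ext z
  simp only [outer, gsm_eq_some, Set.mem_ofPred_eq]
  constructor
  · rintro ⟨a, b, ⟨a', ha, rfl⟩, ⟨b', hb, rfl⟩, rfl⟩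
    exact ⟨a', b', ha, hb, by group⟩
  · rintro ⟨a, b, ha, hb, rfl⟩
    exact ⟨g * a, g * b, ⟨a, ha, rfl⟩, ⟨b, hb, rfl⟩, by group⟩

theorem mmul_outer_of_pair {α β γ δ : Fin 3 → Option G} {g : G} (h : Pair β γ g) :
    mmul (outer α β) (outer γ δ) = outer α (gsm g δ) := by
  funext i k; ext z
  simp only [mmul, outer, Set.mem_ofPred_eq, gsm_eq_some]
  obtain ⟨⟨j, b, c, hb, hc⟩, h3⟩ := h
  constructor
  · rintro ⟨⟨j', x, y, ⟨a', b', ha', hb', rfl⟩, ⟨c', d', hc', hd', rfl⟩, rfl⟩, -⟩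
    refine ⟨a', g * d', ha', ⟨d', hd', rfl⟩, ?_⟩
    rw [← h3 j' b' c' hb' hc']; group
  · rintro ⟨a, gd, ha, ⟨d, hd, rfl⟩, rfl⟩
    refine ⟨⟨j, a⁻¹ * b, c⁻¹ * d, ⟨a, b, ha, hb, rfl⟩, ⟨c, d, hc, hd, rfl⟩, ?_⟩, ?_⟩
    · rw [← h3 j b c hb hc]; group
    · rintro j' x y ⟨a', b', ha', hb', rfl⟩ ⟨c', d', hc', hd', rfl⟩
      rw [ha] at ha'; rw [hd] at hd'
      obtain rfl := Option.some.inj ha'
      obtain rfl := Option.some.inj hd'
      rw [← h3 j' b' c' hb' hc']; group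

theorem mmul_outer_of_not_pair {α β γ δ : Fin 3 → Option G} (h : ¬ ∃ g, Pair β γ g) :
    mmul (outer α β) (outer γ δ) = diag G ∅ := by
  funext i k; ext z
  simp only [mmul, outer, diag, Set.mem_ofPred_eq, Set.mem_empty_iff_false, false_and, and_false,
    iff_false]
  rintro ⟨⟨j, x, y, ⟨a, b, ha, hb, rfl⟩, ⟨c, d, hc, hd, rfl⟩, rfl⟩, h3⟩
  refine h ⟨b * c⁻¹, ⟨j, b, c, hb, hc⟩, fun j' b' c' hb' hc' => ?_⟩
  have h4 := h3 j' (a⁻¹ * b') (c'⁻¹ * d) ⟨a, b', ha, hb', rfl⟩ ⟨c', d, hc', hd, rfl⟩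
  have h5 : a⁻¹ * (b' * c'⁻¹) * d = a⁻¹ * (b * c⁻¹) * d := by
    simpa only [mul_assoc] using h4
  exact mul_left_cancel (mul_right_cancel h5)

theorem mmul_diag_diag (D E : Set (Fin 3)) : mmul (diag G D) (diag G E) = diag G (D ∩ E) := by
  funext i k; ext z
  simp only [mmul, diag, Set.mem_ofPred_eq, Set.mem_inter_iff]
  constructor
  · rintro ⟨⟨j, x, y, ⟨rfl, hi, rfl⟩, ⟨rfl, hj, rfl⟩, rfl⟩, -⟩
    exact ⟨rfl, ⟨hi, hj⟩, by simp⟩
  · rintro ⟨rfl, ⟨hi, hj⟩, rfl⟩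
    refine ⟨⟨i, 1, 1, ⟨rfl, hi, rfl⟩, ⟨rfl, hj, rfl⟩, by simp⟩, ?_⟩
    rintro j x y ⟨rfl, -, rfl⟩ ⟨-, -, rfl⟩
    simp

theorem mmul_diag_outer (D : Set (Fin 3)) (α β : Fin 3 → Option G) :
    mmul (diag G D) (outer α β) = outer (res D α) β := by
  funext i k; ext z
  simp only [mmul, diag, outer, Set.mem_ofPred_eq, res_eq_some]
  constructor
  · rintro ⟨⟨j, x, y, ⟨rfl, hi, rfl⟩, ⟨a, b, ha, hb, rfl⟩, rfl⟩, -⟩
    exact ⟨a, b, ⟨hi, ha⟩, hb, by simp⟩
  · rintro ⟨a, b, ⟨hi, ha⟩, hb, rfl⟩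
    refine ⟨⟨i, 1, a⁻¹ * b, ⟨rfl, hi, rfl⟩, ⟨a, b, ha, hb, rfl⟩, by simp⟩, ?_⟩
    rintro j x y ⟨rfl, -, rfl⟩ ⟨a', b', ha', hb', rfl⟩
    rw [ha] at ha'; rw [hb] at hb'
    rw [Option.some.inj ha', Option.some.inj hb', one_mul]

theorem mmul_outer_diag (D : Set (Fin 3)) (α β : Fin 3 → Option G) :
    mmul (outer α β) (diag G D) = outer α (res D β) := by
  funext i k; ext z
  simp only [mmul, diag, outer, Set.mem_ofPred_eq, res_eq_some]
  constructor
  · rintro ⟨⟨j, x, y, ⟨a, b, ha, hb, rfl⟩, ⟨rfl, hi, rfl⟩, rfl⟩, -⟩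
    exact ⟨a, b, ha, ⟨hi, hb⟩, by simp⟩
  · rintro ⟨a, b, ha, ⟨hi, hb⟩, rfl⟩
    refine ⟨⟨k, a⁻¹ * b, 1, ⟨a, b, ha, hb, rfl⟩, ⟨rfl, hi, rfl⟩, by simp⟩, ?_⟩
    rintro j x y ⟨a', b', ha', hb', rfl⟩ ⟨rfl, -, rfl⟩
    rw [ha] at ha'; rw [hb] at hb'
    rw [Option.some.inj ha', Option.some.inj hb', mul_one]

theorem diag_empty_mmul (M : Mat G) : mmul (diag G ∅) M = diag G ∅ := by
  funext i k; ext z
  simp [mmul, diag]

theorem mmul_diag_empty (M : Mat G) : mmul M (diag G ∅) = diag G ∅ := by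
  funext i k; ext z
  simp [mmul, diag]

theorem mstar_mmul (M N : Mat G) : mstar (mmul M N) = mmul (mstar N) (mstar M) := by
  funext i k; ext z
  simp only [mstar, mmul, Set.mem_ofPred_eq]
  constructor
  · rintro ⟨⟨j, x, y, hx, hy, h⟩, h3⟩
    refine ⟨⟨j, y⁻¹, x⁻¹, by simpa using hy, by simpa using hx, ?_⟩, ?_⟩
    · rw [← mul_inv_rev, h, inv_inv]
    · intro j' x' y' hx' hy'
      have := h3 j' y'⁻¹ x'⁻¹ hy' hx'
      rw [← mul_inv_rev] at this
      exact inv_injective this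
  · rintro ⟨⟨j, x, y, hx, hy, h⟩, h3⟩
    refine ⟨⟨j, y⁻¹, x⁻¹, hy, hx, ?_⟩, ?_⟩
    · rw [← mul_inv_rev, h]
    · intro j' x' y' hx' hy'
      have := h3 j' y'⁻¹ x'⁻¹ (by simpa using hy') (by simpa using hx')
      rw [← mul_inv_rev] at this
      rw [← this, inv_inv]

theorem mstar_mstar (M : Mat G) : mstar (mstar M) = M := by
  funext i k; ext z; simp [mstar]

theorem mstar_diag (D : Set (Fin 3)) : mstar (diag G D) = diag G D := by
  funext i k; ext z
  simp only [mstar, diag, Set.mem_ofPred_eq, inv_eq_one]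
  constructor
  · rintro ⟨rfl, h, rfl⟩; exact ⟨rfl, h, rfl⟩
  · rintro ⟨rfl, h, rfl⟩; exact ⟨rfl, h, rfl⟩

theorem mstar_outer (α β : Fin 3 → Option G) : mstar (outer α β) = outer β α := by
  funext i k; ext z
  simp only [mstar, outer, Set.mem_ofPred_eq]
  constructor
  · rintro ⟨a, b, ha, hb, h⟩
    refine ⟨b, a, hb, ha, ?_⟩
    rw [← inv_inv z, h]; group
  · rintro ⟨a, b, ha, hb, rfl⟩
    exact ⟨b, a, hb, ha, by group⟩

/-- The members of the model. -/
def IsMember (M : Mat G) : Prop := (∃ D, M = diag G D) ∨ ∃ α β, M = outer α β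

theorem IsMember.mmul {M N : Mat G} (hM : IsMember M) (hN : IsMember N) :
    IsMember (mmul M N) := by
  rcases hM with ⟨D, rfl⟩ | ⟨α, β, rfl⟩ <;> rcases hN with ⟨E, rfl⟩ | ⟨γ, δ, rfl⟩
  · exact Or.inl ⟨_, mmul_diag_diag D E⟩
  · exact Or.inr ⟨_, _, mmul_diag_outer D γ δ⟩
  · exact Or.inr ⟨_, _, mmul_outer_diag E α β⟩
  · by_cases h : ∃ g, Pair β γ g
    · obtain ⟨g, hg⟩ := h
      exact Or.inr ⟨_, _, mmul_outer_of_pair hg⟩
    · exact Or.inl ⟨_, mmul_outer_of_not_pair h⟩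

theorem IsMember.mstar {M : Mat G} (hM : IsMember M) : IsMember (mstar M) := by
  rcases hM with ⟨D, rfl⟩ | ⟨α, β, rfl⟩
  · exact Or.inl ⟨_, mstar_diag D⟩
  · exact Or.inr ⟨_, _, mstar_outer α β⟩

theorem res_res (D E : Set (Fin 3)) (α : Fin 3 → Option G) :
    res D (res E α) = res (D ∩ E) α := by
  classical
  funext i
  simp only [res, Set.mem_inter_iff]
  by_cases h1 : i ∈ D <;> by_cases h2 : i ∈ E <;> simp [h1, h2]

theorem res_gsm (D : Set (Fin 3)) (g : G) (α : Fin 3 → Option G) :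
    res D (gsm g α) = gsm g (res D α) := by
  classical
  funext i
  simp only [res, gsm]
  by_cases h1 : i ∈ D <;> simp [h1]

theorem mmul_assoc {M N K : Mat G} (hM : IsMember M) (hN : IsMember N) (hK : IsMember K) :
    mmul (mmul M N) K = mmul M (mmul N K) := by
  rcases hM with ⟨D, rfl⟩ | ⟨α, β, rfl⟩ <;> rcases hN with ⟨E, rfl⟩ | ⟨γ, δ, rfl⟩ <;>
    rcases hK with ⟨F, rfl⟩ | ⟨ε, ζ, rfl⟩
  · simp only [mmul_diag_diag, Set.inter_assoc]
  · simp only [mmul_diag_diag, mmul_diag_outer, res_res]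
  · simp only [mmul_outer_diag, mmul_diag_outer]
  · rw [mmul_diag_outer]
    by_cases h : ∃ g, Pair δ ε g
    · obtain ⟨g, hg⟩ := h
      rw [mmul_outer_of_pair hg, mmul_outer_of_pair hg, mmul_diag_outer]
    · rw [mmul_outer_of_not_pair h, mmul_outer_of_not_pair h, mmul_diag_empty]
  · rw [mmul_outer_diag, mmul_outer_diag, mmul_diag_diag, mmul_outer_diag, res_res,
      Set.inter_comm]
  · rw [mmul_outer_diag, mmul_diag_outer]
    by_cases h : ∃ g, Pair (res E β) ε g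
    · obtain ⟨g, hg⟩ := h
      rw [mmul_outer_of_pair hg, mmul_outer_of_pair ((pair_res_iff E).1 hg)]
    · rw [mmul_outer_of_not_pair h, mmul_outer_of_not_pair]
      rintro ⟨g, hg⟩
      exact h ⟨g, (pair_res_iff E).2 hg⟩
  · rw [mmul_outer_diag]
    by_cases h : ∃ g, Pair β γ g
    · obtain ⟨g, hg⟩ := h
      rw [mmul_outer_of_pair hg, mmul_outer_of_pair hg, mmul_outer_diag, res_gsm]
    · rw [mmul_outer_of_not_pair h, mmul_outer_of_not_pair h, diag_empty_mmul]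
  · by_cases h : ∃ g, Pair β γ g
    · obtain ⟨g, hg⟩ := h
      rw [mmul_outer_of_pair hg]
      by_cases h' : ∃ k, Pair δ ε k
      · obtain ⟨k, hk⟩ := h'
        rw [mmul_outer_of_pair hk, mmul_outer_of_pair (hk.gsm_left g),
          mmul_outer_of_pair hg, gsm_gsm]
      · rw [mmul_outer_of_not_pair h', mmul_diag_empty, mmul_outer_of_not_pair]
        rintro ⟨k, hk⟩
        exact h' ⟨_, hk.of_gsm_left g⟩
    · rw [mmul_outer_of_not_pair h, diag_empty_mmul]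
      by_cases h' : ∃ k, Pair δ ε k
      · obtain ⟨k, hk⟩ := h'
        rw [mmul_outer_of_pair hk, mmul_outer_of_not_pair h]
      · rw [mmul_outer_of_not_pair h', mmul_diag_empty]

theorem mmul_mstar_mmul {M : Mat G} (hM : IsMember M) : mmul (mmul M (mstar M)) M = M := by
  rcases hM with ⟨D, rfl⟩ | ⟨α, β, rfl⟩
  · simp only [mstar_diag, mmul_diag_diag, Set.inter_self]
  · rw [mstar_outer]
    by_cases hβ : ∃ j b, β j = some b
    · obtain ⟨j, b, hb⟩ := hβ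
      by_cases hα : ∃ i a, α i = some a
      · obtain ⟨i, a, ha⟩ := hα
        rw [mmul_outer_of_pair (pair_self hb), gsm_one, mmul_outer_of_pair (pair_self ha), gsm_one]
      · have h0 : outer α β = diag G ∅ := by
          funext i k; ext z
          simp only [outer, diag, Set.mem_ofPred_eq, Set.mem_empty_iff_false, false_and, and_false,
            iff_false]
          rintro ⟨a, b, ha, -⟩
          exact hα ⟨i, a, ha⟩
        rw [h0, diag_empty_mmul, diag_empty_mmul]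
    · have h0 : outer α β = diag G ∅ := by
        funext i k; ext z
        simp only [outer, diag, Set.mem_ofPred_eq, Set.mem_empty_iff_false, false_and, and_false,
          iff_false]
        rintro ⟨a, b, -, hb, -⟩
        exact hβ ⟨k, b, hb⟩
      rw [h0, diag_empty_mmul, diag_empty_mmul]

/-- The model attached to the group `G`. -/
def Model (G : Type u) [Group G] : Type u := {M : Mat G // IsMember M}

instance : RegularStarSemigroup (Model G) where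
  mul a b := ⟨mmul a.1 b.1, a.2.mmul b.2⟩
  mul_assoc a b c := Subtype.ext (mmul_assoc a.2 b.2 c.2)
  star a := ⟨mstar a.1, a.2.mstar⟩
  star_involutive a := Subtype.ext (mstar_mstar a.1)
  star_mul a b := Subtype.ext (mstar_mmul a.1 b.1)
  mul_star_mul_self a := Subtype.ext (mmul_mstar_mmul a.2)

end Model

end Pool.Agent.Lib.MP_89ce39_al
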