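import Pool.Agent.Lib.MP_89ce39_al.Model

/-!
Computation of a maximal subgroup of the free projection-generated semigroup over the
projections of the model attached to a group `G`.
-/

set_option autoImplicit false

universe u

namespace Pool.Agent.Lib.MP_89ce39_al

section General

variable {S : Type u} [RegularStarSemigroup S]

/-- The generator `x_p`. -/
def gen (p : Projection S) : PG S := ((FreeSemigroup.of p : FreeSemigroup (Projection S)) : PG S)

theorem gen_idem (p : Projection S) : gen p * gen p = gen p := by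
  have h : (conGen (PGRel S)) (FreeSemigroup.of p * FreeSemigroup.of p) (FreeSemigroup.of p) :=
    ConGen.Rel.of _ _ (PGRel.idem p)
  exact (Con.eq _).2 h

theorem gen_prod (p q : Projection S) : gen p * gen q * (gen p * gen q) = gen p * gen q := by
  have h : (conGen (PGRel S))
      (FreeSemigroup.of p * FreeSemigroup.of q * (FreeSemigroup.of p * FreeSemigroup.of q))
      (FreeSemigroup.of p * FreeSemigroup.of q) :=
    ConGen.Rel.of _ _ (PGRel.prod p q)
  exact (Con.eq _).2 h

theorem gen_conj (p q : Projection S) : gen p * gen q * gen p = gen (Projection.conj p q) := by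
  have h : (conGen (PGRel S))
      (FreeSemigroup.of p * FreeSemigroup.of q * FreeSemigroup.of p)
      (FreeSemigroup.of (Projection.conj p q)) :=
    ConGen.Rel.of _ _ (PGRel.conj p q)
  exact (Con.eq _).2 h

/-- The evaluation on words. -/
def evalWord : FreeSemigroup (Projection S) →ₙ* S := FreeSemigroup.lift (fun p => p.1)

/-- The kernel congruence of the evaluation. -/
def evalCon (S : Type u) [RegularStarSemigroup S] : Con (FreeSemigroup (Projection S)) where
  r a b := evalWord a = evalWord b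
  iseqv := ⟨fun _ => rfl, fun h => h.symm, fun h1 h2 => h1.trans h2⟩
  mul' := by
    intro a b c d h1 h2
    show evalWord (a * c) = evalWord (b * d)
    rw [map_mul, map_mul]
    have h1' : evalWord a = evalWord b := h1
    have h2' : evalWord c = evalWord d := h2
    rw [h1', h2']

theorem conGen_le_evalCon : conGen (PGRel S) ≤ evalCon S := by
  rw [Con.conGen_le]
  intro a b h
  show evalWord a = evalWord b
  cases h with
  | idem p => rw [map_mul]; exact p.2.1
  | prod p q => rw [map_mul, map_mul]; exact mul_mul_mul_self p q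
  | conj p q => rw [map_mul, map_mul]; rfl

/-- The natural map from `PG(P(S))` to `S`. -/
def eval (a : PG S) : S :=
  Con.liftOn a evalWord (fun _ _ h => conGen_le_evalCon h)

theorem eval_mul (a b : PG S) : eval (a * b) = eval a * eval b := by
  induction a, b using Con.induction_on₂ with
  | _ a b => exact map_mul evalWord a b

theorem eval_gen (p : Projection S) : eval (gen p) = p.1 := rfl

end General

section Main

variable {G : Type u} [Group G]

theorem outer_mul_self (β : Fin 3 → Option G) : mmul (outer β β) (outer β β) = outer β β := by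
  by_cases hβ : ∃ j b, β j = some b
  · obtain ⟨j, b, hb⟩ := hβ
    rw [mmul_outer_of_pair (pair_self hb), gsm_one]
  · have h0 : outer β β = diag G ∅ := by
      funext i k; ext z
      simp only [outer, diag, Set.mem_ofPred_eq, Set.mem_empty_iff_false, false_and, and_false,
        iff_false]
      rintro ⟨a, b, -, hb, -⟩
      exact hβ ⟨k, b, hb⟩
    rw [h0, diag_empty_mmul]

/-- The partial identity projection. -/
def projE (D : Set (Fin 3)) : Projection (Model G) :=
  ⟨⟨diag G D, Or.inl ⟨D, rfl⟩⟩,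
    Subtype.ext ((mmul_diag_diag D D).trans (by rw [Set.inter_self])),
    Subtype.ext (mstar_diag D)⟩

/-- The rank one projection. -/
def projP (β : Fin 3 → Option G) : Projection (Model G) :=
  ⟨⟨outer β β, Or.inr ⟨β, β, rfl⟩⟩, Subtype.ext (outer_mul_self β), Subtype.ext (mstar_outer β β)⟩

theorem proj_cases (p : Projection (Model G)) : (∃ D, p = projE D) ∨ ∃ β, p = projP β := by
  obtain ⟨⟨M, hM⟩, hp1, hp2⟩ := p
  have h1 : mmul M M = M := congrArg Subtype.val hp1
  have h2 : mstar M = M := congrArg Subtype.val hp2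
  rcases hM with ⟨D, rfl⟩ | ⟨α, β, rfl⟩
  · exact Or.inl ⟨D, rfl⟩
  · rw [mstar_outer] at h2
    have h3 : mmul (outer α β) (outer β α) = outer α β := by rw [h2, h1]
    by_cases hβ : ∃ j b, β j = some b
    · obtain ⟨j, b, hb⟩ := hβ
      rw [mmul_outer_of_pair (pair_self hb), gsm_one] at h3
      exact Or.inr ⟨α, Subtype.ext (Subtype.ext h3.symm)⟩
    · left
      refine ⟨∅, Subtype.ext (Subtype.ext ?_)⟩
      show outer α β = diag G ∅
      funext i k; ext z
      simp only [outer, diag, Set.mem_ofPred_eq, Set.mem_empty_iff_false, false_and, and_false,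
        iff_false]
      rintro ⟨a, b, -, hb, -⟩
      exact hβ ⟨k, b, hb⟩

/-- The generator at a partial identity. -/
def xE (D : Set (Fin 3)) : PG (Model G) := gen (projE D)

/-- The generator at a rank one projection. -/
def xP (β : Fin 3 → Option G) : PG (Model G) := gen (projP β)

/-- The domain of a partial function. -/
def dom (β : Fin 3 → Option G) : Set (Fin 3) := {i | ∃ a, β i = some a}

theorem mem_dom {β : Fin 3 → Option G} {i : Fin 3} : i ∈ dom β ↔ ∃ a, β i = some a := Iff.rfl

theorem res_eq_self {D : Set (Fin 3)} {β : Fin 3 → Option G} (h : dom β ⊆ D) :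
    res D β = β := by
  classical
  funext i
  unfold res
  split_ifs with hi
  · rfl
  · cases hb : β i with
    | none => rfl
    | some b => exact absurd (h ⟨b, hb⟩) hi

theorem xP_idem (β : Fin 3 → Option G) : xP β * xP β = xP β := gen_idem _

theorem xE_xP_xE (D : Set (Fin 3)) (β : Fin 3 → Option G) :
    xE D * xP β * xE D = xP (res D β) := by
  unfold xE xP
  rw [gen_conj]
  congr 1
  refine Subtype.ext (Subtype.ext ?_)
  show mmul (mmul (diag G D) (outer β β)) (diag G D) = outer (res D β) (res D β)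
  rw [mmul_diag_outer, mmul_outer_diag]

theorem xP_xE (D : Set (Fin 3)) (β : Fin 3 → Option G) :
    xP β * xE D = xP β * xP (res D β) := by
  calc xP β * xE D = xP β * xE D * (xP β * xE D) := (gen_prod _ _).symm
    _ = xP β * (xE D * xP β * xE D) := by simp only [mul_assoc]
    _ = xP β * xP (res D β) := by rw [xE_xP_xE]

theorem xE_xP (D : Set (Fin 3)) (β : Fin 3 → Option G) :
    xE D * xP β = xP (res D β) * xP β := by
  calc xE D * xP β = xE D * xP β * (xE D * xP β) := (gen_prod _ _).symm
    _ = (xE D * xP β * xE D) * xP β := by simp only [mul_assoc]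
    _ = xP (res D β) * xP β := by rw [xE_xP_xE]

theorem xE_xP_of_subset {D : Set (Fin 3)} {β : Fin 3 → Option G} (h : dom β ⊆ D) :
    xE D * xP β = xP β := by
  rw [xE_xP, res_eq_self h, xP_idem]

theorem xP_xE_of_subset {D : Set (Fin 3)} {β : Fin 3 → Option G} (h : dom β ⊆ D) :
    xP β * xE D = xP β := by
  rw [xP_xE, res_eq_self h, xP_idem]

theorem xP_xP (β γ : Fin 3 → Option G) :
    xP β * xP γ = xP β * xP (res (dom γ) β) * xP γ := by
  rw [← xP_xE, mul_assoc, xE_xP_of_subset subset_rfl]

theorem xP_xP' (β γ : Fin 3 → Option G) :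
    xP γ * xP β = xP γ * xP (res (dom γ) β) * xP β := by
  rw [mul_assoc, ← xE_xP, ← mul_assoc, xP_xE_of_subset subset_rfl]

/-- The one-point partial function. -/
def vpt (G : Type u) [Group G] (i : Fin 3) : Fin 3 → Option G := fun j => if j = i then some 1 else none

theorem vpt_eq_some {i j : Fin 3} {a : G} : vpt G i j = some a ↔ j = i ∧ a = 1 := by
  unfold vpt; split_ifs with h
  · simp [h, eq_comm]
  · simp [h]

theorem dom_vpt (i : Fin 3) : dom (vpt G i) = {i} := by
  ext j
  simp only [mem_dom, vpt_eq_some, Set.mem_singleton_iff]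
  constructor
  · rintro ⟨a, h, -⟩; exact h
  · intro h; exact ⟨1, h, rfl⟩

/-- The generator at a one-point projection. -/
def xV (i : Fin 3) : PG (Model G) := xP (vpt G i)

theorem xV_idem (i : Fin 3) : (xV i : PG (Model G)) * xV i = xV i := xP_idem _

theorem xP_gsm (g : G) (β : Fin 3 → Option G) : xP (gsm g β) = xP β := by
  unfold xP
  congr 1
  exact Subtype.ext (Subtype.ext (outer_gsm_gsm g β β))

theorem xP_xP_xP {β γ : Fin 3 → Option G} {g : G} (h : Pair β γ g) :
    xP β * xP γ * xP β = xP β := by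
  unfold xP
  rw [gen_conj]
  congr 1
  refine Subtype.ext (Subtype.ext ?_)
  show mmul (mmul (outer β β) (outer γ γ)) (outer β β) = outer β β
  have h2 : Pair (gsm g γ) β (g * g⁻¹) := h.symm.gsm_left g
  rw [mmul_outer_of_pair h, mmul_outer_of_pair h2, mul_inv_cancel, gsm_one]

theorem xV_xP_res {i : Fin 3} {D : Set (Fin 3)} (hi : i ∈ D) (β : Fin 3 → Option G) :
    xV i * xP β = xV i * xP (res D β) * xP β := by
  have h : (xV i : PG (Model G)) * xE D = xV i := by
    apply xP_xE_of_subset
    rw [dom_vpt]; simpa using hi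
  rw [mul_assoc, ← xE_xP, ← mul_assoc, h]

theorem xP_xV_res {i : Fin 3} {D : Set (Fin 3)} (hi : i ∈ D) (β : Fin 3 → Option G) :
    xP β * xV i = xP β * xP (res D β) * xV i := by
  have h : (xE D : PG (Model G)) * xV i = xV i := by
    apply xE_xP_of_subset
    rw [dom_vpt]; simpa using hi
  rw [← xP_xE, mul_assoc, h]

theorem xP_res_eq {β γ : Fin 3 → Option G} {g : G} (h : Pair β γ g) :
    xP (res (dom γ) β) = xP (res (dom β) γ) := by
  have : res (dom γ) β = gsm g (res (dom β) γ) := by
    funext i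
    cases hb : β i with
    | none =>
      have h1 : i ∉ dom β := by
        rintro ⟨a, ha⟩; rw [hb] at ha; exact absurd ha (by simp)
      classical
      simp [res, gsm, hb, h1]
    | some b =>
      have h1 : i ∈ dom β := ⟨b, hb⟩
      cases hc : γ i with
      | none =>
        have h2 : i ∉ dom γ := by
          rintro ⟨a, ha⟩; rw [hc] at ha; exact absurd ha (by simp)
        classical
        simp [res, gsm, hc, h2]
      | some c =>
        have h2 : i ∈ dom γ := ⟨c, hc⟩
        classical
        simp only [res, gsm, hb, hc, h1, h2, if_true, Option.map_some]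
        rw [← h.2 i b c hb hc]; simp
  rw [this, xP_gsm]

theorem pair_res_self {β γ : Fin 3 → Option G} {i : Fin 3} {b c : G} (hb : β i = some b)
    (hc : γ i = some c) : Pair (res (dom γ) β) β 1 := by
  refine ⟨⟨i, b, b, res_eq_some.2 ⟨⟨c, hc⟩, hb⟩, hb⟩, fun j b' c' hb' hc' => ?_⟩
  have := (res_eq_some.1 hb').2
  rw [hc'] at this
  rw [Option.some.inj this]; group

theorem keyK {β γ : Fin 3 → Option G} {g : G} (h : Pair β γ g) {i : Fin 3}
    (hi : i ∈ dom β) (hi' : i ∈ dom γ) :
    xV i * xP β * xP γ = xV i * xP γ := by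
  obtain ⟨b, hb⟩ := hi
  obtain ⟨c, hc⟩ := hi'
  calc xV i * xP β * xP γ = xV i * (xP β * xP (res (dom γ) β) * xP γ) := by
        rw [mul_assoc, xP_xP]
    _ = (xV i * xP β) * xP (res (dom γ) β) * xP γ := by simp only [mul_assoc]
    _ = (xV i * xP (res (dom γ) β) * xP β) * xP (res (dom γ) β) * xP γ := by
        rw [xV_xP_res (D := dom γ) ⟨c, hc⟩ β]
    _ = xV i * (xP (res (dom γ) β) * xP β * xP (res (dom γ) β)) * xP γ := by
        simp only [mul_assoc]
    _ = xV i * xP (res (dom γ) β) * xP γ := by rw [xP_xP_xP (pair_res_self hb hc)]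
    _ = xV i * xP (res (dom β) γ) * xP γ := by rw [xP_res_eq h]
    _ = xV i * xP γ := (xV_xP_res (D := dom β) ⟨b, hb⟩ γ).symm

theorem keyK' {β γ : Fin 3 → Option G} {g : G} (h : Pair β γ g) {i : Fin 3}
    (hi : i ∈ dom β) (hi' : i ∈ dom γ) :
    xP γ * xP β * xV i = xP γ * xV i := by
  obtain ⟨b, hb⟩ := hi
  obtain ⟨c, hc⟩ := hi'
  calc xP γ * xP β * xV i = (xP γ * xP (res (dom γ) β) * xP β) * xV i := by
        rw [← xP_xP']
    _ = xP γ * xP (res (dom γ) β) * (xP β * xV i) := by simp only [mul_assoc]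
    _ = xP γ * xP (res (dom γ) β) * (xP β * xP (res (dom γ) β) * xV i) := by
        rw [← xP_xV_res (D := dom γ) ⟨c, hc⟩ β]
    _ = xP γ * (xP (res (dom γ) β) * xP β * xP (res (dom γ) β)) * xV i := by
        simp only [mul_assoc]
    _ = xP γ * xP (res (dom γ) β) * xV i := by rw [xP_xP_xP (pair_res_self hb hc)]
    _ = xP γ * xP (res (dom β) γ) * xV i := by rw [xP_res_eq h]
    _ = xP γ * xV i := (xP_xV_res (D := dom β) ⟨b, hb⟩ γ).symm

/-- The elementary path from `i` to `j` through `β`. -/
def W (i : Fin 3) (β : Fin 3 → Option G) (j : Fin 3) : PG (Model G) := xV i * xP β * xV j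

theorem W_congr {β γ : Fin 3 → Option G} {g : G} (h : Pair β γ g) {i j : Fin 3}
    (hi : i ∈ dom β) (hi' : i ∈ dom γ) (hj : j ∈ dom β) (hj' : j ∈ dom γ) :
    W i β j = W i γ j := by
  unfold W
  calc xV i * xP β * xV j = (xV i * xP γ * xP β) * xV j := by rw [keyK h.symm hi' hi]
    _ = xV i * (xP γ * xP β * xV j) := by simp only [mul_assoc]
    _ = xV i * (xP γ * xV j) := by rw [keyK' h hj hj']
    _ = xV i * xP γ * xV j := by simp only [mul_assoc]

theorem pair_vpt {β : Fin 3 → Option G} {j : Fin 3} {b : G} (hb : β j = some b) :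
    Pair β (vpt G j) b := by
  refine ⟨⟨j, b, 1, hb, vpt_eq_some.2 ⟨rfl, rfl⟩⟩, fun j' b' c' hb' hc' => ?_⟩
  obtain ⟨rfl, rfl⟩ := vpt_eq_some.1 hc'
  rw [hb] at hb'; rw [Option.some.inj hb']; group

theorem xP_xV_xP {β : Fin 3 → Option G} {j : Fin 3} (hj : j ∈ dom β) :
    xP β * xV j * xP β = xP β := by
  obtain ⟨b, hb⟩ := hj
  exact xP_xP_xP (pair_vpt hb)

theorem W_mul {β : Fin 3 → Option G} {i j k : Fin 3} (hj : j ∈ dom β) :
    W i β j * W j β k = W i β k := by
  unfold W
  calc xV i * xP β * xV j * (xV j * xP β * xV k)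
      = xV i * xP β * (xV j * xV j) * xP β * xV k := by simp only [mul_assoc]
    _ = xV i * (xP β * xV j * xP β) * xV k := by rw [xV_idem]; simp only [mul_assoc]
    _ = xV i * xP β * xV k := by rw [xP_xV_xP hj]

theorem W_self {β : Fin 3 → Option G} {i : Fin 3} (hi : i ∈ dom β) :
    W i β i = xV i := by
  obtain ⟨b, hb⟩ := hi
  exact xP_xP_xP (pair_vpt hb).symm

/-- The two-point partial function. -/
def ept (i j : Fin 3) (g : G) : Fin 3 → Option G :=
  fun k => if k = i then some 1 else if k = j then some g else none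

/-- The elementary path from `i` to `j` with label `g`. -/
def gam (i j : Fin 3) (g : G) : PG (Model G) := W i (ept i j g) j

theorem W_eq_gam {β : Fin 3 → Option G} {i j : Fin 3} (hij : i ≠ j) {a b : G}
    (ha : β i = some a) (hb : β j = some b) : W i β j = gam i j (a⁻¹ * b) := by
  have hei : ept i j (a⁻¹ * b) i = some 1 := by simp [ept]
  have hej : ept i j (a⁻¹ * b) j = some (a⁻¹ * b) := by simp [ept, hij.symm]
  have hp : Pair β (ept i j (a⁻¹ * b)) a := by
    refine ⟨⟨i, a, 1, ha, hei⟩, fun k b' c' hb' hc' => ?_⟩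
    by_cases hki : k = i
    · subst hki
      rw [ha] at hb'; rw [hei] at hc'
      rw [← Option.some.inj hb', ← Option.some.inj hc']; group
    · by_cases hkj : k = j
      · subst hkj
        rw [hb] at hb'; rw [hej] at hc'
        rw [← Option.some.inj hb', ← Option.some.inj hc']; group
      · simp [ept, hki, hkj] at hc'
  exact W_congr hp ⟨a, ha⟩ ⟨1, hei⟩ ⟨b, hb⟩ ⟨_, hej⟩

/-- The three-point partial function. -/
def tpt (i j : Fin 3) (g h : G) : Fin 3 → Option G :=
  fun k => if k = i then some 1 else if k = j then some g else some (g * h)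

theorem gam_mul {i j k : Fin 3} (hij : i ≠ j) (hjk : j ≠ k) (hik : i ≠ k) (g h : G) :
    gam i j g * gam j k h = gam i k (g * h) := by
  have h1 : tpt i j g h i = some 1 := by simp [tpt]
  have h2 : tpt i j g h j = some g := by simp [tpt, hij.symm]
  have h3 : tpt i j g h k = some (g * h) := by simp [tpt, hik.symm, hjk.symm]
  have e1 := W_eq_gam hij h1 h2
  have e2 := W_eq_gam hjk h2 h3
  have e3 := W_eq_gam hik h1 h3
  have e4 : W i (tpt i j g h) j * W j (tpt i j g h) k = W i (tpt i j g h) k :=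
    W_mul ⟨_, h2⟩
  rw [e1, e2, e3] at e4
  simpa using e4

theorem gam_xV (i j : Fin 3) (g : G) : gam i j g * xV j = gam i j g := by
  unfold gam W
  rw [mul_assoc, xV_idem]

theorem xV_gam (i j : Fin 3) (g : G) : xV i * gam i j g = gam i j g := by
  unfold gam W
  rw [← mul_assoc, ← mul_assoc, xV_idem]

/-- The element of the maximal subgroup attached to `g`. -/
def Psi (g : G) : PG (Model G) := gam 0 2 g * gam 2 0 1

theorem gam_02_20_01 (g h : G) : gam 0 2 g * gam 2 0 1 * gam 0 1 h = gam 0 1 (g * h) := by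
  rw [mul_assoc, gam_mul (by decide) (by decide) (by decide),
    gam_mul (by decide) (by decide) (by decide), one_mul]

theorem gam_02_20_02 (g h : G) : gam 0 2 g * gam 2 0 1 * gam 0 2 h = gam 0 2 (g * h) := by
  have e : gam 0 2 h = gam 0 1 1 * gam 1 2 h := by
    rw [gam_mul (by decide) (by decide) (by decide), one_mul]
  rw [e, ← mul_assoc, gam_02_20_01, mul_one, gam_mul (by decide) (by decide) (by decide)]

theorem Psi_mul (g h : G) : Psi g * Psi h = Psi (g * h) := by
  unfold Psi
  rw [← mul_assoc, gam_02_20_02]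

theorem Psi_one : Psi (1 : G) = xV 0 := by
  have h0 : ept 0 2 (1 : G) 0 = some 1 := by simp [ept]
  have h2 : ept 0 2 (1 : G) 2 = some 1 := by simp [ept]
  have e1 := W_eq_gam (by decide) h0 h2
  have e2 := W_eq_gam (by decide) h2 h0
  have e3 : W 0 (ept 0 2 (1 : G)) 2 * W 2 (ept 0 2 (1 : G)) 0 = W 0 (ept 0 2 (1 : G)) 0 :=
    W_mul ⟨_, h2⟩
  rw [e1, e2, W_self ⟨_, h0⟩, inv_one, one_mul] at e3
  exact e3

/-- The chosen path from `0` to `j`. -/
def sig (G : Type u) [Group G] : Fin 3 → PG (Model G)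
  | 0 => xV 0
  | 1 => gam 0 1 1
  | 2 => gam 0 2 1

theorem sig_xV (j : Fin 3) : sig G j * xV j = sig G j := by
  fin_cases j
  · exact xV_idem 0
  · exact gam_xV _ _ _
  · exact gam_xV _ _ _

theorem Psi_xV (g : G) : Psi g * xV 0 = Psi g := by
  unfold Psi; rw [mul_assoc, gam_xV]

theorem xV_Psi (g : G) : xV 0 * Psi g = Psi g := by
  unfold Psi; rw [← mul_assoc, xV_gam]

theorem sig_gam {j k : Fin 3} (hjk : j ≠ k) (h : G) :
    sig G j * gam j k h = Psi h * sig G k := by
  have a01 : Psi h * gam 0 1 1 = gam 0 1 h := by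
    unfold Psi; rw [gam_02_20_01, mul_one]
  have a02 : Psi h * gam 0 2 1 = gam 0 2 h := by
    unfold Psi; rw [gam_02_20_02, mul_one]
  fin_cases j <;> fin_cases k
  · exact absurd rfl hjk
  · show xV 0 * gam 0 1 h = Psi h * gam 0 1 1
    rw [xV_gam, a01]
  · show xV 0 * gam 0 2 h = Psi h * gam 0 2 1
    rw [xV_gam, a02]
  · show gam 0 1 1 * gam 1 0 h = Psi h * xV 0
    rw [Psi_xV]
    have e : gam 1 0 h = gam 1 2 h * gam 2 0 1 := by
      rw [gam_mul (by decide) (by decide) (by decide), mul_one]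
    rw [e, ← mul_assoc, gam_mul (by decide) (by decide) (by decide), one_mul]
    rfl
  · exact absurd rfl hjk
  · show gam 0 1 1 * gam 1 2 h = Psi h * gam 0 2 1
    rw [a02, gam_mul (by decide) (by decide) (by decide), one_mul]
  · show gam 0 2 1 * gam 2 0 h = Psi h * xV 0
    rw [Psi_xV]
    have e : gam 2 0 h = gam 2 1 h * gam 1 0 1 := by
      rw [gam_mul (by decide) (by decide) (by decide), mul_one]
    have e' : gam 1 0 (1 : G) = gam 1 2 1 * gam 2 0 1 := by
      rw [gam_mul (by decide) (by decide) (by decide), mul_one]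
    rw [e, ← mul_assoc, gam_mul (by decide) (by decide) (by decide), one_mul, e', ← mul_assoc,
      gam_mul (by decide) (by decide) (by decide), mul_one]
    rfl
  · show gam 0 2 1 * gam 2 1 h = Psi h * gam 0 1 1
    rw [a01, gam_mul (by decide) (by decide) (by decide), one_mul]
  · exact absurd rfl hjk

/-- The normal forms. -/
def NF (a : PG (Model G)) : Prop :=
  ∃ (g : G) (j : Fin 3) (β : Fin 3 → Option G), β j = some 1 ∧ a = Psi g * sig G j * xP β

theorem change_index (g : G) (j k : Fin 3) (β : Fin 3 → Option G) (b : G) (hj : β j = some 1)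
    (hk : β k = some b) :
    Psi g * sig G j * xP β = Psi (g * b) * sig G k * xP (gsm b⁻¹ β) := by
  rw [xP_gsm]
  by_cases hjk : j = k
  · subst hjk
    rw [hj] at hk
    rw [← Option.some.inj hk, mul_one]
  · have e1 : xV j * xP β = W j β k * xP β := by
      unfold W
      calc xV j * xP β = xV j * (xP β * xV k * xP β) := by rw [xP_xV_xP ⟨b, hk⟩]
        _ = xV j * xP β * xV k * xP β := by simp only [mul_assoc]
    calc Psi g * sig G j * xP β = Psi g * (sig G j * xV j) * xP β := by rw [sig_xV]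
      _ = Psi g * sig G j * (xV j * xP β) := by simp only [mul_assoc]
      _ = Psi g * sig G j * (gam j k b * xP β) := by
          rw [e1, W_eq_gam hjk hj hk, inv_one, one_mul]
      _ = Psi g * (sig G j * gam j k b) * xP β := by simp only [mul_assoc]
      _ = Psi g * (Psi b * sig G k) * xP β := by rw [sig_gam hjk]
      _ = (Psi g * Psi b) * sig G k * xP β := by simp only [mul_assoc]
      _ = Psi (g * b) * sig G k * xP β := by rw [Psi_mul]

/-- The zero of the model. -/
def zero (G : Type u) [Group G] : Model G := ⟨diag G ∅, Or.inl ⟨∅, rfl⟩⟩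

theorem zero_mul' (a : Model G) : zero G * a = zero G := Subtype.ext (diag_empty_mmul a.1)

theorem mul_zero' (a : Model G) : a * zero G = zero G := Subtype.ext (mmul_diag_empty a.1)

theorem outer_eq_zero_of_empty (α β : Fin 3 → Option G) (h : ¬ ∃ k, k ∈ dom β) :
    outer α β = diag G ∅ := by
  funext i k; ext z
  simp only [outer, diag, Set.mem_ofPred_eq, Set.mem_empty_iff_false, false_and, and_false,
    iff_false]
  rintro ⟨a, b, -, hb, -⟩
  exact h ⟨k, b, hb⟩

theorem NF_step {a : PG (Model G)} (ha : NF a) (p : Projection (Model G))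
    (h0 : eval (a * gen p) ≠ zero G) : NF (a * gen p) := by
  obtain ⟨g, j, β, hj, rfl⟩ := ha
  rcases proj_cases p with ⟨D, rfl⟩ | ⟨γ, rfl⟩
  · -- partial identity
    have hk : ∃ k, k ∈ dom (res D β) := by
      by_contra hcon
      apply h0
      rw [eval_mul, eval_mul, mul_assoc]
      have : eval (xP β) * eval (gen (projE D)) = zero G := by
        refine Subtype.ext ?_
        show mmul (outer β β) (diag G D) = diag G ∅
        rw [mmul_outer_diag, outer_eq_zero_of_empty _ _ hcon]
      rw [this, mul_zero']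
    obtain ⟨k, b, hb⟩ := hk
    obtain ⟨hkD, hkb⟩ := res_eq_some.1 hb
    rw [change_index g j k β b hj hkb]
    have hk1 : gsm b⁻¹ β k = some 1 := gsm_eq_some.2 ⟨b, hkb, by group⟩
    generalize gsm b⁻¹ β = β' at hk1
    have hk2 : res D β' k = some 1 := res_eq_some.2 ⟨hkD, hk1⟩
    refine ⟨g * b, k, res D β', hk2, ?_⟩
    have hp : Pair β' (res D β') 1 := by
      refine ⟨⟨k, 1, 1, hk1, hk2⟩, fun j' b' c' hb' hc' => ?_⟩
      have := (res_eq_some.1 hc').2
      rw [hb'] at this; rw [Option.some.inj this]; group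
    calc Psi (g * b) * sig G k * xP β' * xE D
        = Psi (g * b) * (sig G k * xV k) * (xP β' * xE D) := by
          rw [sig_xV]; simp only [mul_assoc]
      _ = Psi (g * b) * sig G k * (xV k * xP β' * xP (res D β')) := by
          rw [xP_xE]; simp only [mul_assoc]
      _ = Psi (g * b) * sig G k * (xV k * xP (res D β')) := by
          rw [keyK hp ⟨_, hk1⟩ ⟨_, hk2⟩]
      _ = Psi (g * b) * (sig G k * xV k) * xP (res D β') := by simp only [mul_assoc]
      _ = Psi (g * b) * sig G k * xP (res D β') := by rw [sig_xV]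
  · have hk : ∃ h, Pair β γ h := by
      by_contra hcon
      apply h0
      rw [eval_mul, eval_mul, mul_assoc]
      have : eval (xP β) * eval (gen (projP γ)) = zero G := by
        refine Subtype.ext ?_
        show mmul (outer β β) (outer γ γ) = diag G ∅
        rw [mmul_outer_of_not_pair hcon]
      rw [this, mul_zero']
    obtain ⟨h, hp⟩ := hk
    obtain ⟨k, b, c, hb, hc⟩ := hp.1
    rw [change_index g j k β b hj hb]
    have hp' := hp.gsm_left b⁻¹
    have hk1 : gsm b⁻¹ β k = some 1 := gsm_eq_some.2 ⟨b, hb, by group⟩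
    generalize gsm b⁻¹ β = β' at hk1 hp'
    refine ⟨g * b, k, gsm c⁻¹ γ, gsm_eq_some.2 ⟨c, hc, by group⟩, ?_⟩
    rw [xP_gsm]
    calc Psi (g * b) * sig G k * xP β' * xP γ
        = Psi (g * b) * (sig G k * xV k) * (xP β' * xP γ) := by
          rw [sig_xV]; simp only [mul_assoc]
      _ = Psi (g * b) * sig G k * (xV k * xP β' * xP γ) := by simp only [mul_assoc]
      _ = Psi (g * b) * sig G k * (xV k * xP γ) := by
          rw [keyK hp' ⟨_, hk1⟩ ⟨_, hc⟩]
      _ = Psi (g * b) * (sig G k * xV k) * xP γ := by simp only [mul_assoc]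
      _ = Psi (g * b) * sig G k * xP γ := by rw [sig_xV]

theorem NF_word (w : FreeSemigroup (Projection (Model G))) :
    ∀ a : PG (Model G), NF a → eval (a * (w : PG (Model G))) ≠ zero G →
      NF (a * (w : PG (Model G))) := by
  induction w using FreeSemigroup.recOnMul with
  | ih1 p => intro a ha h0; exact NF_step ha p h0
  | ih2 p w _ ihw =>
    intro a ha h0
    have e : a * ((FreeSemigroup.of p * w : FreeSemigroup (Projection (Model G))) : PG (Model G))
        = (a * gen p) * (w : PG (Model G)) := by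
      rw [mul_assoc]; rfl
    rw [e] at h0 ⊢
    have h1 : eval (a * gen p) ≠ zero G := by
      intro hz
      apply h0
      rw [eval_mul, hz, zero_mul']
    exact ihw _ (NF_step ha p h1) h0

theorem NF_xV : NF (xV 0 : PG (Model G)) := by
  refine ⟨1, 0, vpt G 0, vpt_eq_some.2 ⟨rfl, rfl⟩, ?_⟩
  show xV 0 = Psi 1 * xV 0 * xV 0
  rw [Psi_one, xV_idem, xV_idem]

theorem eval_xV_ne_zero (i : Fin 3) : eval (xV i : PG (Model G)) ≠ zero G := by
  intro h
  have h1 : outer (vpt G i) (vpt G i) = diag G ∅ := congrArg Subtype.val h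
  have h2 : (1 : G) ∈ outer (vpt G i) (vpt G i) i i :=
    ⟨1, 1, vpt_eq_some.2 ⟨rfl, rfl⟩, vpt_eq_some.2 ⟨rfl, rfl⟩, by group⟩
  rw [h1] at h2
  exact h2.2.1

theorem mem_maximalSubgroup_iff (a : PG (Model G)) :
    a ∈ maximalSubgroup (xV 0 : PG (Model G)) ↔ ∃ g : G, a = Psi g := by
  constructor
  · rintro ⟨⟨h1, h2⟩, ⟨h3, -⟩⟩
    have e1 : xV 0 * a = a := by
      rcases h1 with h | ⟨x, h⟩
      · rw [h, xV_idem]
      · rw [h, ← mul_assoc, xV_idem]
    have e2 : a * xV 0 = a := by
      rcases h3 with h | ⟨x, h⟩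
      · rw [h, xV_idem]
      · rw [h, mul_assoc, xV_idem]
    have h0 : eval a ≠ zero G := by
      intro hz
      rcases h2 with h | ⟨x, h⟩
      · apply eval_xV_ne_zero (G := G) 0
        rw [h, hz]
      · apply eval_xV_ne_zero (G := G) 0
        rw [h, eval_mul, hz, zero_mul']
    have hNF : NF a := by
      obtain ⟨w, rfl⟩ : ∃ w : FreeSemigroup (Projection (Model G)), (w : PG (Model G)) = a := by
        induction a using Con.induction_on with
        | _ w => exact ⟨w, rfl⟩
      have := NF_word w (xV 0) NF_xV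
      rw [e1] at this
      exact this h0
    obtain ⟨g, j, β, hj, rfl⟩ := hNF
    have h0' : ∃ k, Pair β (vpt G 0) k := by
      by_contra hcon
      apply h0
      rw [← e2, eval_mul, eval_mul, mul_assoc]
      have : eval (xP β) * eval (xV 0 : PG (Model G)) = zero G := by
        refine Subtype.ext ?_
        show mmul (outer β β) (outer (vpt G 0) (vpt G 0)) = diag G ∅
        rw [mmul_outer_of_not_pair hcon]
      rw [this, mul_zero']
    obtain ⟨k, ⟨i, b, c, hb, hc⟩, -⟩ := h0'
    obtain ⟨rfl, rfl⟩ := vpt_eq_some.1 hc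
    refine ⟨g * b, ?_⟩
    rw [← e2, change_index g j 0 β b hj hb]
    have hk1 : gsm b⁻¹ β 0 = some 1 := gsm_eq_some.2 ⟨b, hb, by group⟩
    generalize gsm b⁻¹ β = β' at hk1
    show Psi (g * b) * xV 0 * xP β' * xV 0 = Psi (g * b)
    have : xV 0 * xP β' * xV 0 = xV 0 := W_self ⟨_, hk1⟩
    rw [mul_assoc, mul_assoc, ← mul_assoc (xV 0), this, Psi_xV]
  · rintro ⟨g, rfl⟩
    refine ⟨⟨Or.inr ⟨Psi g, (xV_Psi g).symm⟩, Or.inr ⟨Psi g⁻¹, ?_⟩⟩,
      ⟨Or.inr ⟨Psi g, (Psi_xV g).symm⟩, Or.inr ⟨Psi g⁻¹, ?_⟩⟩⟩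
    · rw [Psi_mul, mul_inv_cancel, Psi_one]
    · rw [Psi_mul, inv_mul_cancel, Psi_one]

theorem eval_gam {i j : Fin 3} (hij : i ≠ j) (g : G) :
    (eval (gam i j g)).1 = outer (vpt G i) (gsm g (vpt G j)) := by
  unfold gam W
  rw [eval_mul, eval_mul]
  show mmul (mmul (outer (vpt G i) (vpt G i)) (outer (ept i j g) (ept i j g)))
    (outer (vpt G j) (vpt G j)) = _
  have h1 : Pair (ept i j g) (vpt G i) 1 := pair_vpt (by simp [ept])
  have h2 : Pair (vpt G i) (ept i j g) 1 := by simpa using h1.symm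
  have h3 : Pair (ept i j g) (vpt G j) g := pair_vpt (by simp [ept, hij.symm])
  rw [mmul_outer_of_pair h2, gsm_one, mmul_outer_of_pair h3]

theorem eval_Psi (g : G) :
    (eval (Psi g)).1 = outer (vpt G 0) (gsm g (vpt G 0)) := by
  unfold Psi
  rw [eval_mul]
  show mmul (eval (gam 0 2 g)).1 (eval (gam 2 0 (1 : G))).1 = _
  rw [eval_gam (by decide), eval_gam (by decide)]
  have h1 : Pair (gsm g (vpt G 2)) (vpt G 2) (g * 1) :=
    (pair_vpt (vpt_eq_some.2 ⟨rfl, rfl⟩)).gsm_left g
  rw [mmul_outer_of_pair h1, gsm_gsm, mul_one, mul_one]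

theorem Psi_injective : Function.Injective (Psi : G → PG (Model G)) := by
  intro g h hgh
  have h1 : outer (vpt G 0) (gsm g (vpt G 0)) = outer (vpt G 0) (gsm h (vpt G 0)) := by
    rw [← eval_Psi, ← eval_Psi, hgh]
  have h2 : g ∈ outer (vpt G 0) (gsm g (vpt G 0)) 0 0 :=
    ⟨1, g, vpt_eq_some.2 ⟨rfl, rfl⟩, gsm_eq_some.2 ⟨1, vpt_eq_some.2 ⟨rfl, rfl⟩, by group⟩,
      by group⟩
  rw [h1] at h2
  obtain ⟨a, b, ha, hb, rfl⟩ := h2
  obtain ⟨-, rfl⟩ := vpt_eq_some.1 ha
  obtain ⟨c, hc, rfl⟩ := gsm_eq_some.1 hb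
  obtain ⟨-, rfl⟩ := vpt_eq_some.1 hc
  group

end Main

end Pool.Agent.Lib.MP_89ce39_al
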